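import Pool.Agent.N783.PF.Fin

/-!
# The theorem for elliptic curves (part `S_FIN1` of project PF; helper61)
-/

set_option autoImplicit false
set_option linter.all false

open Polynomial IsDedekindDomain NumberField
open scoped Classical

namespace Pool.Agent.N61.PF

open Pool.Agent.N783.PF
open Pool.Agent.N874.PP (sW)
open Pool.Agent.TH115.GD (Pt)
open Pool.Agent.N874.QM (SelC ShaC SelM)

section

variable {F : Type} [Field F] [NumberField F]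

/-- the monic polynomial of degree three -/
noncomputable def pol (a b : 𝓞 F) : (𝓞 F)[X] := X ^ 3 + C a * X + C b

theorem pol_natDegree (a b : 𝓞 F) : (pol a b).natDegree = 3 := by
  unfold pol; compute_degree!

theorem pol_monic (a b : 𝓞 F) : (pol a b).Monic := by
  unfold pol; monicity!

theorem pol_coeff0 (a b : 𝓞 F) : (pol a b).coeff 0 = b := by
  unfold pol; simp

theorem pol_coeff1 (a b : 𝓞 F) : (pol a b).coeff 1 = a := by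
  unfold pol; simp [coeff_X, coeff_C]

theorem pol_coeff2 (a b : 𝓞 F) : (pol a b).coeff 2 = 0 := by
  unfold pol; simp [coeff_X, coeff_C]

theorem eq_pol {B : ℕ} {f : (𝓞 F)[X]} (h : Ht 1 B f) : f = pol (f.coeff 1) (f.coeff 0) := by
  have hd : f.natDegree = 3 := h.deg
  have h3 : f.coeff 3 = 1 := by
    have := h.mon.coeff_natDegree
    rwa [hd] at this
  have h2 : f.coeff 2 = 0 := h.tr
  refine Polynomial.ext fun n => ?_
  rcases lt_or_ge n 4 with hn | hn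
  · interval_cases n
    · rw [pol_coeff0]
    · rw [pol_coeff1]
    · rw [pol_coeff2, h2]
    · rw [h3]
      have := (pol_monic (f.coeff 1) (f.coeff 0)).coeff_natDegree
      rw [pol_natDegree] at this
      exact this.symm
  · rw [coeff_eq_zero_of_natDegree_lt (by omega), coeff_eq_zero_of_natDegree_lt (by rw [pol_natDegree]; omega)]

theorem fF_eq {B : ℕ} {f : (𝓞 F)[X]} (h : Ht 1 B f) :
    fF f = X ^ 3 + C ((f.coeff 1 : 𝓞 F) : F) * X + C ((f.coeff 0 : 𝓞 F) : F) := by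
  have h1 := eq_pol h
  conv_lhs => rw [h1]
  unfold pol
  simp [fF]

theorem ht_pol {B : ℕ} {a b : 𝓞 F} (ha : Bd (a : F) ((B : ℝ) ^ 2)) (hb : Bd (b : F) ((B : ℝ) ^ 3)) :
    Ht 1 B (pol a b) := by
  refine ⟨pol_monic a b, pol_natDegree a b, pol_coeff2 a b, ?_⟩
  intro j hj
  interval_cases j
  · rw [pol_coeff0]; exact hb
  · rw [pol_coeff1]; exact ha
  · rw [pol_coeff2]
    intro σ
    simp

theorem disc_ne {a b : F} (h : Irreducible (X ^ 3 + C a * X + C b : F[X])) :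
    4 * a ^ 3 + 27 * b ^ 2 ≠ 0 := by
  intro h0
  have hsep : (X ^ 3 + C a * X + C b : F[X]).Separable := h.separable
  -- if `a = 0` then `b = 0` and `X` divides the polynomial
  have h3 : (3 : F) ≠ 0 := by norm_num
  have h27 : (27 : F) ≠ 0 := by norm_num
  have hnr : ∀ x : F, x ^ 3 + a * x + b ≠ 0 := by
    intro x hx
    have hdeg : (X ^ 3 + C a * X + C b : F[X]).natDegree = 3 := by compute_degree!
    have hroot : (X ^ 3 + C a * X + C b : F[X]).IsRoot x := by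
      simp [IsRoot]
      exact hx
    have h1 := natDegree_eq_of_degree_eq_some (degree_eq_one_of_irreducible_of_root h hroot)
    rw [hdeg] at h1
    norm_num at h1
  by_cases ha : a = 0
  · subst ha
    have hb : b = 0 := by
      have : 27 * b ^ 2 = 0 := by linear_combination h0
      have h4 : b ^ 2 = 0 := by
        rcases mul_eq_zero.mp this with h | h
        · exact absurd h h27
        · exact h
      exact pow_eq_zero_iff (by norm_num) |>.mp h4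
    exact hnr 0 (by rw [hb]; ring)
  · -- the double zero is `-3 b / (2 a)`
    apply hnr (-(3 * b) / (2 * a))
    have h2 : (2 : F) ≠ 0 := by norm_num
    field_simp
    linear_combination (-b) * h0

theorem bd_mono {x : F} {R R' : ℝ} (h : Bd x R) (hR : R ≤ R') : Bd x R' := fun σ => (h σ).trans hR

theorem crv_finite (h0 : S_PTS) (Y : ℝ) : {p : 𝓞 F × 𝓞 F | Crv Y p}.Finite := by
  obtain ⟨-, C, hC, -, h2⟩ := h0 F
  have hR : (0 : ℝ) ≤ 1 + |Y| := by positivity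
  have h3 := (h2 ⊤ 0 (1 + |Y|) top_ne_bot hR).1
  refine (h3.prod h3).subset ?_
  intro p hp
  have hp' : Crv Y p := hp
  have h4 : ∀ x : ℝ, 0 ≤ x → ∀ k : ℕ, 1 ≤ k → ∀ m : ℝ, 1 ≤ m → m * x ^ k ≤ Y → x ≤ 1 + |Y| := by
    intro x hx k hk m hm h
    by_contra hcon
    rw [not_le] at hcon
    have h5 : 1 ≤ x := by linarith [abs_nonneg Y]
    have h6 : x ≤ x ^ k := le_self_pow₀ h5 (by omega)
    have h7 : x ^ k ≤ m * x ^ k := le_mul_of_one_le_left (by positivity) hm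
    linarith [le_abs_self Y]
  refine Set.mem_prod.mpr ⟨⟨Submodule.mem_top, ?_⟩, ⟨Submodule.mem_top, ?_⟩⟩
  · intro σ
    exact h4 _ (norm_nonneg _) 3 (by norm_num) 4 (by norm_num) (hp'.ht σ).1
  · intro σ
    exact h4 _ (norm_nonneg _) 2 (by norm_num) 27 (by norm_num) (hp'.ht σ).2

theorem crv_upper {C : ℝ} (hC : 0 < C)
    (h2 : ∀ (𝔞 : Ideal (𝓞 F)) (b : 𝓞 F) (R : ℝ), 𝔞 ≠ ⊥ → 0 ≤ R →
      {a : 𝓞 F | a - b ∈ 𝔞 ∧ Bd (a : F) R}.Finite ∧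
      (({a : 𝓞 F | a - b ∈ 𝔞 ∧ Bd (a : F) R}.ncard : ℝ)) ≤
        C * (R ^ Module.finrank ℚ F / (Ideal.absNorm 𝔞 : ℝ) + 1)) {B : ℕ} (hB : 1 ≤ B) {Y : ℝ}
    (hY : Y < 27 * ((B : ℝ) + 1) ^ 6) :
    ({p : 𝓞 F × 𝓞 F | Crv Y p}.ncard : ℝ) ≤
      C ^ 2 * 2 ^ (6 * Module.finrank ℚ F + 2) * (B : ℝ) ^ (5 * Module.finrank ℚ F) := by
  set d := Module.finrank ℚ F with hd
  have hB1 : (1 : ℝ) ≤ B := by exact_mod_cast hB
  set R₁ : ℝ := 2 * ((B : ℝ) + 1) ^ 2 with hR₁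
  set R₂ : ℝ := ((B : ℝ) + 1) ^ 3 with hR₂
  have hR₁0 : 1 ≤ R₁ := by
    rw [hR₁]; nlinarith
  have hR₂0 : 1 ≤ R₂ := by
    rw [hR₂]; exact one_le_pow₀ (by linarith)
  obtain ⟨f1, n1⟩ := h2 ⊤ 0 R₁ top_ne_bot (by linarith)
  obtain ⟨f2, n2⟩ := h2 ⊤ 0 R₂ top_ne_bot (by linarith)
  rw [Ideal.absNorm_top, Nat.cast_one, div_one] at n1 n2
  have hsub : {p : 𝓞 F × 𝓞 F | Crv Y p} ⊆
      {a : 𝓞 F | a - 0 ∈ (⊤ : Ideal (𝓞 F)) ∧ Bd (a : F) R₁} ×ˢ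
        {a : 𝓞 F | a - 0 ∈ (⊤ : Ideal (𝓞 F)) ∧ Bd (a : F) R₂} := by
    intro p hp
    have hp' : Crv Y p := hp
    refine Set.mem_prod.mpr ⟨⟨Submodule.mem_top, ?_⟩, ⟨Submodule.mem_top, ?_⟩⟩
    · intro σ
      have h3 := (hp'.ht σ).1
      by_contra hcon
      rw [not_le] at hcon
      have h4 : R₁ ^ 3 < ‖σ (p.1 : F)‖ ^ 3 := pow_lt_pow_left₀ hcon (by linarith) (by norm_num)
      have h5 : R₁ ^ 3 = 8 * ((B : ℝ) + 1) ^ 6 := by rw [hR₁]; ring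
      have h6 : 0 < ((B : ℝ) + 1) ^ 6 := by positivity
      linarith
    · intro σ
      have h3 := (hp'.ht σ).2
      by_contra hcon
      rw [not_le] at hcon
      have h4 : R₂ ^ 2 < ‖σ (p.2 : F)‖ ^ 2 := pow_lt_pow_left₀ hcon (by linarith) (by norm_num)
      have h5 : R₂ ^ 2 = ((B : ℝ) + 1) ^ 6 := by rw [hR₂]; ring
      linarith
  have h3 := Set.ncard_le_ncard hsub (f1.prod f2)
  rw [Set.ncard_prod] at h3
  have h4 : ({p : 𝓞 F × 𝓞 F | Crv Y p}.ncard : ℝ) ≤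
      ({a : 𝓞 F | a - 0 ∈ (⊤ : Ideal (𝓞 F)) ∧ Bd (a : F) R₁}.ncard : ℝ) *
        ({a : 𝓞 F | a - 0 ∈ (⊤ : Ideal (𝓞 F)) ∧ Bd (a : F) R₂}.ncard : ℝ) := by
    exact_mod_cast h3
  have h5 : R₁ ^ d + 1 ≤ 2 * R₁ ^ d := by
    have := one_le_pow₀ hR₁0 (n := d); linarith
  have h6 : R₂ ^ d + 1 ≤ 2 * R₂ ^ d := by
    have := one_le_pow₀ hR₂0 (n := d); linarith
  have h7 : (B : ℝ) + 1 ≤ 2 * B := by linarith
  calc ({p : 𝓞 F × 𝓞 F | Crv Y p}.ncard : ℝ) ≤ _ := h4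
    _ ≤ (C * (R₁ ^ d + 1)) * (C * (R₂ ^ d + 1)) :=
        mul_le_mul n1 n2 (Nat.cast_nonneg _) (by positivity)
    _ ≤ (C * (2 * R₁ ^ d)) * (C * (2 * R₂ ^ d)) := by gcongr
    _ = C ^ 2 * 4 * (2 ^ d * ((B : ℝ) + 1) ^ (5 * d)) := by
        rw [hR₁, hR₂, mul_pow, ← pow_mul, ← pow_mul]
        have : (5 * d) = 2 * d + 3 * d := by ring
        rw [this, pow_add]
        ring
    _ ≤ C ^ 2 * 4 * (2 ^ d * (2 * (B : ℝ)) ^ (5 * d)) := by gcongr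
    _ = _ := by
        have e : (2 : ℝ) ^ (6 * d) = 2 ^ d * 2 ^ (5 * d) := by
          rw [← pow_add]; congr 1; ring
        rw [mul_pow, pow_add, e]
        ring

theorem ht_lower {C : ℝ} (hC : 0 < C)
    (h1 : ∀ R : ℝ, 1 ≤ R → {a : 𝓞 F | Bd (a : F) R}.Finite ∧
      R ^ Module.finrank ℚ F ≤ C * ({a : 𝓞 F | Bd (a : F) R}.ncard : ℝ)) {B : ℕ} (hB : 1 ≤ B)
    (hfin : {f : (𝓞 F)[X] | Ht 1 B f}.Finite) :
    (B : ℝ) ^ (5 * Module.finrank ℚ F) ≤ C ^ 2 * ({f : (𝓞 F)[X] | Ht 1 B f}.ncard : ℝ) := by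
  set d := Module.finrank ℚ F with hd
  have hB1 : (1 : ℝ) ≤ B := by exact_mod_cast hB
  obtain ⟨f1, n1⟩ := h1 ((B : ℝ) ^ 2) (one_le_pow₀ hB1)
  obtain ⟨f2, n2⟩ := h1 ((B : ℝ) ^ 3) (one_le_pow₀ hB1)
  have hinj : Set.InjOn (fun p : 𝓞 F × 𝓞 F => pol p.1 p.2)
      ({a : 𝓞 F | Bd (a : F) ((B : ℝ) ^ 2)} ×ˢ {a : 𝓞 F | Bd (a : F) ((B : ℝ) ^ 3)}) := by
    intro p _ p' _ h
    have e1 := congrArg (fun f : (𝓞 F)[X] => f.coeff 1) h
    have e0 := congrArg (fun f : (𝓞 F)[X] => f.coeff 0) h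
    simp only [pol_coeff1, pol_coeff0] at e1 e0
    exact Prod.ext e1 e0
  have h3 := Set.ncard_le_ncard_of_injOn (fun p : 𝓞 F × 𝓞 F => pol p.1 p.2)
    (s := {a : 𝓞 F | Bd (a : F) ((B : ℝ) ^ 2)} ×ˢ {a : 𝓞 F | Bd (a : F) ((B : ℝ) ^ 3)})
    (t := {f : (𝓞 F)[X] | Ht 1 B f}) (fun p hp => ht_pol hp.1 hp.2) hinj hfin
  rw [Set.ncard_prod] at h3
  have h4 : ({a : 𝓞 F | Bd (a : F) ((B : ℝ) ^ 2)}.ncard : ℝ) *
      ({a : 𝓞 F | Bd (a : F) ((B : ℝ) ^ 3)}.ncard : ℝ) ≤ ({f : (𝓞 F)[X] | Ht 1 B f}.ncard : ℝ) := by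
    exact_mod_cast h3
  calc (B : ℝ) ^ (5 * d) = ((B : ℝ) ^ 2) ^ d * ((B : ℝ) ^ 3) ^ d := by
        rw [← pow_mul, ← pow_mul, ← pow_add]; congr 1; ring
    _ ≤ (C * ({a : 𝓞 F | Bd (a : F) ((B : ℝ) ^ 2)}.ncard : ℝ)) *
        (C * ({a : 𝓞 F | Bd (a : F) ((B : ℝ) ^ 3)}.ncard : ℝ)) :=
        mul_le_mul n1 n2 (by positivity) (by positivity)
    _ = C ^ 2 * (({a : 𝓞 F | Bd (a : F) ((B : ℝ) ^ 2)}.ncard : ℝ) *
        ({a : 𝓞 F | Bd (a : F) ((B : ℝ) ^ 3)}.ncard : ℝ)) := by ring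
    _ ≤ _ := mul_le_mul_of_nonneg_left h4 (by positivity)

theorem crv_of_ht {B : ℕ} {f : (𝓞 F)[X]} {Y : ℝ} (h : Ht 1 B f) (hirr : Irreducible (fF f))
    (hmin : Min 1 f) (hY : 27 * (B : ℝ) ^ 6 ≤ Y) : Crv Y (f.coeff 1, f.coeff 0) := by
  have hB6 : (0 : ℝ) ≤ (B : ℝ) ^ 6 := by positivity
  refine ⟨?_, ?_, ?_⟩
  · intro h0
    rw [fF_eq h] at hirr
    apply disc_ne hirr
    have h1 := congrArg (algebraMap (𝓞 F) F) h0
    simp only [map_add, map_mul, map_pow, map_zero] at h1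
    have e4 : algebraMap (𝓞 F) F 4 = 4 := map_ofNat _ 4
    have e27 : algebraMap (𝓞 F) F 27 = 27 := map_ofNat _ 27
    rw [e4, e27] at h1
    exact h1
  · intro 𝔭 hp hp0 hcon
    apply hmin 𝔭 hp hp0
    intro j hj
    interval_cases j
    · exact hcon.2
    · exact hcon.1
    · have : f.coeff 2 = 0 := h.tr
      rw [this]
      exact Submodule.zero_mem _
  · intro σ
    have h1 : ‖σ ((f.coeff 1 : 𝓞 F) : F)‖ ≤ (B : ℝ) ^ 2 := h.ht 1 (by norm_num) σ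
    have h2 : ‖σ ((f.coeff 0 : 𝓞 F) : F)‖ ≤ (B : ℝ) ^ 3 := h.ht 0 (by norm_num) σ
    constructor
    · have h3 : ‖σ ((f.coeff 1 : 𝓞 F) : F)‖ ^ 3 ≤ ((B : ℝ) ^ 2) ^ 3 := pow_le_pow_left₀ (norm_nonneg _) h1 3
      have h4 : ((B : ℝ) ^ 2) ^ 3 = (B : ℝ) ^ 6 := by ring
      show 4 * ‖σ ((f.coeff 1 : 𝓞 F) : F)‖ ^ 3 ≤ Y
      linarith
    · have h3 : ‖σ ((f.coeff 0 : 𝓞 F) : F)‖ ^ 2 ≤ ((B : ℝ) ^ 3) ^ 2 := pow_le_pow_left₀ (norm_nonneg _) h2 2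
      have h4 : ((B : ℝ) ^ 3) ^ 2 = (B : ℝ) ^ 6 := by ring
      show 27 * ‖σ ((f.coeff 0 : 𝓞 F) : F)‖ ^ 2 ≤ Y
      linarith

theorem good_of (h2 : Pool.Agent.N874.QM.S_SELC) (h3 : Pool.Agent.N874.QM.S_GFC)
    (h4 : Pool.Agent.N874.QM.S_FINC) {B : ℕ} {f : (𝓞 F)[X]} (h : Ht 1 B f)
    (hirr : Irreducible (fF f)) (hsel : SelZero f) : Good (f.coeff 1, f.coeff 0) := by
  have hirr' := hirr
  rw [fF_eq h] at hirr'
  have hd := disc_ne hirr'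
  have hsel' : SelM F (X ^ 3 + C ((f.coeff 1 : 𝓞 F) : F) * X + C ((f.coeff 0 : 𝓞 F) : F)) := by
    rw [← fF_eq h]
    exact hsel
  have hs := h2 F _ _ hd hirr' hsel'
  obtain ⟨hdiv, hsha⟩ := h3 F _ _ hd hs
  obtain ⟨hf, ho⟩ := h4 F _ _ hd hdiv
  exact ⟨hs, hsha, hf, ho⟩

theorem exists_B (B₁ : ℕ) (Y : ℝ) (hB₁ : 1 ≤ B₁) (hY : 27 * (B₁ : ℝ) ^ 6 ≤ Y) :
    ∃ B : ℕ, B₁ ≤ B ∧ 27 * (B : ℝ) ^ 6 ≤ Y ∧ Y < 27 * ((B : ℝ) + 1) ^ 6 := by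
  have hex : ∃ n : ℕ, Y < 27 * ((n : ℝ) + 1) ^ 6 := by
    obtain ⟨n, hn⟩ := exists_nat_gt Y
    refine ⟨n, hn.trans_le ?_⟩
    have h1 : (1 : ℝ) ≤ (n : ℝ) + 1 := by
      have : (0 : ℝ) ≤ n := Nat.cast_nonneg n
      linarith
    have h2 : (n : ℝ) + 1 ≤ ((n : ℝ) + 1) ^ 6 := le_self_pow₀ h1 (by norm_num)
    linarith
  set B := Nat.find hex with hB
  have hspec := Nat.find_spec hex
  have hmin : ∀ m < B, 27 * ((m : ℝ) + 1) ^ 6 ≤ Y := fun m hm => not_lt.mp (Nat.find_min hex hm)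
  have hle : B₁ ≤ B := by
    by_contra hcon
    rw [not_le] at hcon
    have h1 : ((B : ℝ) + 1) ^ 6 ≤ (B₁ : ℝ) ^ 6 := by
      apply pow_le_pow_left₀ (by positivity)
      exact_mod_cast hcon
    linarith
  refine ⟨B, hle, ?_, hspec⟩
  have h1 := hmin (B - 1) (by omega)
  have h2 : (((B - 1 : ℕ) : ℝ) + 1) = B := by
    have : B - 1 + 1 = B := by omega
    exact_mod_cast this
  rwa [h2] at h1

end

theorem fin1 (h0 : S_PTS) (h1 : S_MAIN) (h2 : Pool.Agent.N874.QM.S_SELC)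
    (h3 : Pool.Agent.N874.QM.S_GFC) (h4 : Pool.Agent.N874.QM.S_FINC) : S_FIN1 := by
  intro F _ _
  obtain ⟨-, C, hC, hlow, hup⟩ := h0 F
  obtain ⟨c, hc, B₀, hmain⟩ := h1 1 F le_rfl
  set d := Module.finrank ℚ F with hd
  set B₁ : ℕ := max B₀ 1 with hB₁
  refine ⟨c / (C ^ 2 * (C ^ 2 * 2 ^ (6 * d + 2))), by positivity, 27 * (B₁ : ℝ) ^ 6, ?_⟩
  intro Y
  have hfin := crv_finite (F := F) h0 Y
  refine ⟨hfin, ?_⟩
  intro hY
  have hB₁1 : 1 ≤ B₁ := le_max_right _ _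
  have hB₁r : (1 : ℝ) ≤ B₁ := by exact_mod_cast hB₁1
  have hY27 : 27 ≤ Y := by
    have : (1 : ℝ) ≤ (B₁ : ℝ) ^ 6 := one_le_pow₀ hB₁r
    linarith
  obtain ⟨B, hBB, hBY, hYB⟩ := exists_B B₁ Y hB₁1 hY
  have hB1 : 1 ≤ B := hB₁1.trans hBB
  obtain ⟨hfinH, hprop⟩ := hmain B ((le_max_left _ _).trans hBB)
  constructor
  · rw [Set.ncard_pos hfin]
    refine ⟨(1, 1), ⟨?_, ?_, ?_⟩⟩
    · norm_num
    · intro 𝔭 hp _ hcon
      apply hp.ne_top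
      rw [Ideal.eq_top_iff_one]
      exact Ideal.pow_le_self (by norm_num) hcon.1
    · intro σ
      constructor
      · simp; linarith
      · simp; linarith
  · have hu := crv_upper hC hup hB1 hYB
    have hl := ht_lower hC hlow hB1 hfinH
    rw [← hd] at hu hl
    -- the good polynomials give good curves
    have h5 : ({f : (𝓞 F)[X] | Ht 1 B f ∧ Irreducible (fF f) ∧ SelZero f ∧ Min 1 f}.ncard : ℝ) ≤
        ({p : 𝓞 F × 𝓞 F | Crv Y p ∧ Good p}.ncard : ℝ) := by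
      have h6 := Set.ncard_le_ncard_of_injOn (fun f : (𝓞 F)[X] => (f.coeff 1, f.coeff 0))
        (s := {f : (𝓞 F)[X] | Ht 1 B f ∧ Irreducible (fF f) ∧ SelZero f ∧ Min 1 f})
        (t := {p : 𝓞 F × 𝓞 F | Crv Y p ∧ Good p})
        (fun f hf => ⟨crv_of_ht hf.1 hf.2.1 hf.2.2.2 hBY, good_of h2 h3 h4 hf.1 hf.2.1 hf.2.2.1⟩)
        (by
          intro f hf f' hf' h
          have e := Prod.mk.injEq .. ▸ h
          rw [eq_pol hf.1, eq_pol hf'.1, e.1, e.2])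
        (hfin.subset fun p hp => hp.1)
      exact_mod_cast h6
    have hBd : 0 < (B : ℝ) ^ (5 * d) := by
      have : (0 : ℝ) < B := by exact_mod_cast hB1
      positivity
    have h7 : ({p : 𝓞 F × 𝓞 F | Crv Y p}.ncard : ℝ) ≤
        (C ^ 2 * 2 ^ (6 * d + 2)) * (C ^ 2 * ({f : (𝓞 F)[X] | Ht 1 B f}.ncard : ℝ)) :=
      hu.trans (mul_le_mul_of_nonneg_left hl (by positivity))
    calc c / (C ^ 2 * (C ^ 2 * 2 ^ (6 * d + 2))) * ({p : 𝓞 F × 𝓞 F | Crv Y p}.ncard : ℝ)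
        ≤ c / (C ^ 2 * (C ^ 2 * 2 ^ (6 * d + 2))) *
          ((C ^ 2 * 2 ^ (6 * d + 2)) * (C ^ 2 * ({f : (𝓞 F)[X] | Ht 1 B f}.ncard : ℝ))) :=
          mul_le_mul_of_nonneg_left h7 (by positivity)
      _ = c * ({f : (𝓞 F)[X] | Ht 1 B f}.ncard : ℝ) := by
          field_simp
      _ ≤ _ := hprop.trans h5

end Pool.Agent.N61.PF
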